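import Mathlib
import Pool.Agent.H900.PW.Fin
import Pool.Agent.H900.PW.Rt

/-!
# Families of cubics: the generic member is not stably rational over the base

Let `X → ℙ^s` be a very general linear system of complex cubic hypersurfaces of dimension `n`, given
by `F_0 + t_1 F_1 + … + t_s F_s = 0` with very general cubic forms `F_0, …, F_s` in `n + 2`
variables, and let `X_η` be its generic member, a cubic hypersurface of dimension `n` over the
field `K = ℂ(t_1, …, t_s)`. We show that `X_η` is not stably rational over `K` if
`1 ≤ n ≤ 2 s + 1`. The first case which is not about cubic curves, surfaces or threefolds is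
`s = 2`, `n = 4`: a very general net of cubic fourfolds has no rational (or stably rational) generic
member, and its members (very general cubic fourfolds) have no simultaneous stable parametrization
which depends rationally on the parameters, or rationally up to a choice of odd degree. The total
space of the family is rational over `ℂ`, by `t_1 = - (F_0 + t_2 F_2 + …) / F_1`.

More generally we consider families `∑_{κ ∈ W} t^κ F_κ = 0`, where `W` is a finite set of monomials
`t^κ` in `t_1, …, t_s` which contains `1` and at least one of the `t_i`, and the `F_κ` are very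
general cubic forms. The result holds for `1 ≤ n ≤ 2 N - 1`, where `N` is the number of the
squarefree members of `W`. For instance, if `W` consists of all monomials of degree at most `d`,
then we obtain the generic fibre over `ℙ^s` of a very general hypersurface of bidegree `(d, 3)` in
`ℙ^s × ℙ^{n+1}`, for all `d ≥ 1` and `n ≤ 2 N - 1`, `N = ∑_{j ≤ d} binom(s, j)` (a very general
family of cubics of degree `d` over `ℙ^s`): for `s = 1` this is `n ≤ 3` for all `d`; for `s = 2` it is
`n ≤ 5` for `d = 1`, and `n ≤ 7` for `d ≥ 2`. For the very general hypersurfaces of multidegree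
`(d_1, …, d_s, 3)` in `(ℙ^1)^s × ℙ^{n+1}`, `d_i ≥ 1`, the range is `n ≤ 2^{s+1} - 1`.

(A) Let `L / K` be an algebraic field extension. There is no dominant rational map of odd degree
over `K` from the affine space of dimension `n + m` over `L` to `X_η × 𝔸^m`. For every `L` of odd
degree over `K` (for instance `L = K`) this says that `X_η` is not stably rational over `L`.

(A') More generally, let `r` be a rational map over `L` from an affine space to `X_η`, and let `M` be
a field of odd degree over the function field of `X_η × 𝔸^m` which contains `L`. Then the generic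
point of `X_η` is not the value `r(v)` at a point `v` of the affine space over `M`. For every `L` of
odd degree over `K` (for instance `L = K`) this says that `X_η × 𝔸^m` is not retract rational over `L`.

(B) Let `M` be a field which is a finite extension of odd degree of the function field of
`X_η × 𝔸^m`. The generic point of `X_η`, as a point over `M`, is not joined by a chain of rational
curves on `X_η` over `M` to any point whose coordinates are algebraic over `K`. (For `n ≥ s` the
variety `X_η` has many such points over `K`, for instance the base points of the linear system.)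

All this holds for all families of cubic forms `F_κ` whose coefficients are not a zero of one
of countably many nonzero polynomials with rational coefficients, which do not depend on the `F_κ`.

Proof. The family specializes to the family of cubics
`Φ = y_0 q_0(a) + y_1 (q_1(b) + y_1² + y_0² + t_1 y_0 y_1) = 0`, where `q_0(a) = ∑ t^τ a_τ²` and
`q_1(b) = ∑ t^τ b_τ²` have different squarefree coefficients `t^τ`, `τ ∈ W`, and the coefficient `1` does not
occur in `q_1`. So `q_0` and `q_1 + y_1²` are subforms of the Pfister form `φ = ⟨⟨t_1, …, t_s⟩⟩`.
For a point of the cubic `Φ = 0` over a field `M ⊇ K`, over which `φ` is anisotropic, we consider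
the class of `y_0 y_1` in `M^×` modulo the values of `φ` over `M`.

The class is constant along rational curves over `M`: we claim that the order of `y_0 y_1` is even
at all places of `M(z)` with the property that `φ` is anisotropic over the residue field. This is
clear if `y_0` and `y_1` have the same order. Otherwise one of the squares dominates the other two
terms of `y_1² + y_0² + t_1 y_0 y_1`, hence the leading terms of `q_0(a)` and of
`q_1(b) + y_1² + y_0² + t_1 y_0 y_1` are values of `φ`, and their orders are even. By the norm
principle `y_0 y_1` is then the product of a constant and a value of `φ` over `M(z)`, so that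
the classes at the two ends of the curve agree. (If `y_0 = y_1 = 0` at the end of the curve, the
class is defined by the leading coefficients.)

The class of a point over `M` of the very general member is the class of its specialization
(we use a place with residue field `κ` over which the parameters `t_i` are constant). By a
Newton polygon argument it is also constant along the rational curves on the very general
member, which may degenerate to chains of rational curves on `Φ = 0`.

If the coordinates of the point are algebraic over `K`, then the class is trivial, since `φ`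
represents all elements of a finite extension of `K` (Tsen-Lang). On the other hand the class of the
generic point is not trivial, even over extensions of odd degree: `Φ` is linear in `t_1`, hence the
total space of the family `Φ = 0` is rational, and by successive specializations the Pfister form
`⟨⟨t_1, …, t_s, y_0 y_1⟩⟩` is anisotropic over its function field, and over the extensions
of odd degree (Springer).
-/

set_option autoImplicit false

namespace Pool.Agent.Results.MP_2619d0_ag.CubicFamilies

open MvPolynomial Module

noncomputable section

/-- the field `K = ℂ(t_1, …, t_s)` -/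
abbrev K (s : ℕ) : Type := FractionRing (MvPolynomial (Fin s) ℂ)

/-- the parameters `t_1, …, t_s` -/
def t (s : ℕ) (j : Fin s) : K s := algebraMap (MvPolynomial (Fin s) ℂ) (K s) (X j)

/-- The equation `∑_κ t^κ F_κ` of the generic member of the family of cubic hypersurfaces which is
given by the cubic forms `F_κ`. Here `κ` runs through a finite set `W` of exponents, and `t^κ` is
the product of the `t_j ^ κ_j`. -/
def member {r s : ℕ} (W : Finset (Fin s → ℕ)) (F : {κ // κ ∈ W} → MvPolynomial (Fin r) ℂ) :
    MvPolynomial (Fin r) (K s) :=
  ∑ κ : {κ // κ ∈ W}, C (∏ j, t s j ^ κ.1 j) * map (algebraMap ℂ (K s)) (F κ)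

/-- The points `u` and `u'` of the projective space over `M` are joined by a rational curve over `M`
on the hypersurface `f = 0`: there are polynomials `C_i` in one variable, of degree at most `D`,
with `f(C) = 0`, such that `u` is the value of `C` at `0` and `u'` is the value at `∞` (the vector
of the coefficients in degree `D`). -/
def Joined {k M : Type} [Field k] [Field M] [Algebra k M] {r : ℕ} (f : MvPolynomial (Fin r) k)
    (u u' : Fin r → M) : Prop :=
  u ≠ 0 ∧ u' ≠ 0 ∧ ∃ (D : ℕ) (C : Fin r → Polynomial M), (∀ i, (C i).natDegree ≤ D) ∧
    aeval C f = 0 ∧ (∃ a : M, a ≠ 0 ∧ ∀ i, (C i).coeff 0 = a * u i) ∧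
    ∃ b : M, b ≠ 0 ∧ ∀ i, (C i).coeff D = b * u' i

/-- the field generated over `k` by the ratios of the coordinates of the point `g` of the projective
space and by the elements `R_l` -/
def pointField (k : Type) {M : Type} [Field k] [Field M] [Algebra k M] {r m : ℕ}
    (g : Fin r → M) (R : Fin m → M) : IntermediateField k M :=
  IntermediateField.adjoin k ({z | ∃ i j, z = g i / g j} ∪ Set.range R)

/-- the field of rational functions in `N` variables over `L` -/
abbrev RatFun (N : ℕ) (L : Type) [Field L] : Type := FractionRing (MvPolynomial (Fin N) L)

/-- `g` is a point of the hypersurface `f = 0` in the projective space over `M`, and the degree of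
`M` over the field generated over `k` by `(g, R)` is odd (`finrank` is `0` if the degree is
infinite) -/
def OddPoint (k : Type) {M : Type} [Field k] [Field M] [Algebra k M] {r m : ℕ}
    (f : MvPolynomial (Fin r) k) (g : Fin r → M) (R : Fin m → M) : Prop :=
  g ≠ 0 ∧ aeval g f = 0 ∧ Odd (finrank (pointField k g R) M)

/-- For every algebraic extension `L` of `k`, every `m` and every rational map `(g, R)` over `k`
from the affine space of dimension `n + m` over `L` to the product of the
hypersurface `f = 0` in the projective space of dimension `n + 1` and the affine space of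
dimension `m`, the degree of `(g, R)` is even or infinite. -/
def NoOddParametrization {k : Type} [Field k] {n : ℕ} (f : MvPolynomial (Fin (n + 2)) k) : Prop :=
  ∀ (L : Type) [Field L] [Algebra k L] [Algebra.IsAlgebraic k L] (m : ℕ)
    (g : Fin (n + 2) → RatFun (n + m) L) (R : Fin m → RatFun (n + m) L), ¬ OddPoint k f g R

/-- There are no algebraic extension `L` of `k`, rational map `r` over `L` from an affine space to
the hypersurface `X = (f = 0)`, field `M` containing `L` and point `v` of the affine space over `M`,
such that `g = r(v)` is a generic point of `X` and `M` is of odd degree over the field `k(g, R)` of a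
generic point `(g, R)` of the product of `X` with an affine space of dimension `m` (the
transcendence degree `n + m` of `M` says that this point is generic). For `L = k`, `m = 0` and
`M = k(g)` this says that `X` is not retract rational: if `r ∘ i` is the identity of `X` for
rational maps `i` from `X` to the affine space and `r` back, then `g = r(v)` for `v = i(g)`. The
polynomials `r_0, …, r_{n+1}` are homogeneous coordinates of the map `r`. -/
def NoOddRetraction {k : Type} [Field k] {n : ℕ} (f : MvPolynomial (Fin (n + 2)) k) : Prop :=
  ∀ (L : Type) [Field L] [Algebra k L] [Algebra.IsAlgebraic k L] (N : ℕ)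
    (r : Fin (n + 2) → MvPolynomial (Fin N) L), aeval r f = 0 →
    ∀ (M : Type) [Field M] [Algebra k M] [Algebra L M] [IsScalarTower k L M] (v : Fin N → M)
      (m : ℕ) (R : Fin m → M), Algebra.trdeg k M = ((n + m : ℕ) : Cardinal) →
      ¬ OddPoint k f (fun i => aeval v (r i)) R

/-- Let `g` be a point of the hypersurface `f = 0` in the projective space of dimension `n + 1`,
with coordinates in an extension `M` of `k` of transcendence degree `n + m`, and let
`R_1, …, R_m ∈ M`. We assume that the degree of `M` over the field generated by `(g, R)`
is odd (so `(g, R)` is a generic point of the product of the hypersurface and the affine space of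
dimension `m`). Then `g` is not joined by a chain of rational curves over `M` on the hypersurface to
any point whose coordinates are algebraic over `k`. -/
def NotConnected {k : Type} [Field k] {n : ℕ} (f : MvPolynomial (Fin (n + 2)) k) : Prop :=
  ∀ (M : Type) [Field M] [Algebra k M] (m : ℕ) (g : Fin (n + 2) → M) (R : Fin m → M),
    Algebra.trdeg k M = ((n + m : ℕ) : Cardinal) → OddPoint k f g R →
    ∀ p : Fin (n + 2) → M, (∀ i, IsAlgebraic k (p i)) → ¬ Relation.ReflTransGen (Joined f) g p

/-- the exponents of the monomials of degree three -/
abbrev Mon (r : ℕ) : Type := {β : Fin r →₀ ℕ // β.degree = 3}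

/-- The property `P` holds for all families of cubic forms, indexed by the finite set `W`, outside a
countable union of hypersurfaces: there is a countable set `Ps` of nonzero polynomials
with rational coefficients in the coefficients of the cubic forms `F_κ`, such that `P F` holds
for every family `F` of cubic forms such that no member of `Ps` vanishes at the coefficients
of `F`. -/
def VeryGeneral {s : ℕ} (W : Finset (Fin s → ℕ)) (r : ℕ)
    (P : ({κ // κ ∈ W} → MvPolynomial (Fin r) ℂ) → Prop) : Prop :=
  ∃ Ps : Set (MvPolynomial ({κ // κ ∈ W} × Mon r) ℚ), Ps.Countable ∧ 0 ∉ Ps ∧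
    ∀ F : {κ // κ ∈ W} → MvPolynomial (Fin r) ℂ, (∀ κ, (F κ).IsHomogeneous 3) →
      (∀ Q ∈ Ps, aeval (fun p : {κ // κ ∈ W} × Mon r => coeff p.2.1 (F p.1)) Q ≠ 0) → P F

/-- **Very general families of cubics.** Let `W` be a finite set of monomials in `t_1, …, t_s`
which contains `1` and one of the `t_i`, let `N` be the number of the squarefree members of `W`, and
let `1 ≤ n ≤ 2 N - 1`. Then the generic member of a very general family `∑_κ t^κ F_κ = 0` of cubic
hypersurfaces of dimension `n` has the properties (A), (A') and
(B). -/
theorem result (s n : ℕ) (W : Finset (Fin s → ℕ)) (h0 : 0 ∈ W) (h1 : ∃ i, Pi.single i 1 ∈ W)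
    (hn : 1 ≤ n) (hW : n + 1 ≤ 2 * (W.filter fun κ => ∀ j, κ j ≤ 1).card) :
    VeryGeneral W (n + 2) fun F =>
      NoOddParametrization (member W F) ∧ NoOddRetraction (member W F) ∧
        NotConnected (member W F) := by
  classical
  refine ⟨{P | P ≠ 0}, ?_, fun h => h rfl, ?_⟩
  · have : Countable (MvPolynomial ({κ // κ ∈ W} × Mon (n + 2)) ℚ) :=
      AddMonoidAlgebra.coeff_injective.countable
    exact Set.to_countable _
  intro F hF hP
  let F' : (Fin s → ℕ) → MvPolynomial (Fin (n + 2)) ℂ := fun τ =>
    if h : τ ∈ W then F ⟨τ, h⟩ else 0
  have hF' : ∀ τ : {κ // κ ∈ W}, F' τ.1 = F τ := fun τ => dif_pos τ.2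
  have hfam : member W F = Pool.Agent.H900.PW.famw W F' := by
    unfold member Pool.Agent.H900.PW.famw
    rw [← Finset.sum_coe_sort W]
    refine Finset.sum_congr rfl fun τ _ => ?_
    rw [hF' τ]
    rfl
  have hFh : ∀ τ ∈ W, (F' τ).IsHomogeneous 3 := by
    intro τ hτ
    rw [hF' ⟨τ, hτ⟩]
    exact hF _
  have hind : AlgebraicIndependent ℚ
      (fun p : {κ // κ ∈ W} × {β : Fin (n + 2) →₀ ℕ // β.degree = 3} =>
        coeff p.2.1 (F' p.1.1)) := by
    rw [algebraicIndependent_iff]
    intro P h
    by_contra hne
    refine hP P hne ?_
    rw [← h]
    congr 2
    funext p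
    rw [hF' p.1]
  rw [hfam]
  have hB : ∀ (M : Type) [Field M] [Algebra (K s) M] (m : ℕ) (g : Fin (n + 2) → M)
      (R : Fin m → M) (ι' : Type) (y : ι' → M), AlgebraicIndependent (K s) y →
      ((n + m : ℕ) : Cardinal) ≤ Cardinal.mk ι' → g ≠ 0 →
      aeval g (Pool.Agent.H900.PW.famw W F') = 0 →
      Odd (finrank (pointField (K s) g R) M) →
      ∀ l : Fin (n + 2) → M, (∀ i, IsAlgebraic (K s) (l i)) →
        ¬ Relation.ReflTransGen (Joined (Pool.Agent.H900.PW.famw W F')) g l := by
    intro M _ _ m g R ι' y hy hc hg0 hg hodd l hl
    exact Pool.Agent.H900.PW.main_twow hn hW h0 h1 hFh hind g R hg0 hg hy hc hodd l hl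
  refine ⟨?_, ?_, ?_⟩
  · rintro L _ _ _ m g R ⟨hg0, hg, hodd⟩
    set f := Pool.Agent.H900.PW.famw W F' with hf
    have hfh : f.IsHomogeneous 3 := Pool.Agent.H900.PW.famw_hom hFh
    have hinf : Infinite L := Infinite.of_injective _ (algebraMap (K s) L).injective
    obtain ⟨l, -, hl⟩ := Pool.Agent.H900.LF.param_joined (N := n + m)
      (hfh.map (algebraMap (K s) L)) g hg0 (by rw [aeval_map_algebraMap, hg])
    have hy := (Pool.Agent.H900.LF.vars_indep L (n + m)).restrictScalars
      (R := K s) (algebraMap (K s) L).injective
    refine hB _ m g R _ _ hy (by rw [Cardinal.mk_fin]) hg0 hg hodd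
      (fun i => algebraMap L _ (l i))
      (fun i => (Algebra.IsAlgebraic.isAlgebraic (l i)).algebraMap)
      (Relation.ReflTransGen.single ?_)
    obtain ⟨h1, h2, Dd, Cc, h3, h4, h5, h6⟩ := hl
    refine ⟨h1, h2, Dd, Cc, h3, ?_, h5, h6⟩
    rw [aeval_map_algebraMap] at h4
    exact h4
  · rintro L _ _ _ N r hr M _ _ _ _ v m R htr ⟨hg0, hg, hodd⟩
    set f := Pool.Agent.H900.PW.famw W F' with hf
    have hfh : f.IsHomogeneous 3 := Pool.Agent.H900.PW.famw_hom hFh
    have hinf : Infinite L := Infinite.of_injective _ (algebraMap (K s) L).injective
    obtain ⟨l, -, hl⟩ := Pool.Agent.H900.PW.retract_joined (M := M)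
      (hfh.map (algebraMap (K s) L)) r (by rw [aeval_map_algebraMap, hr]) v hg0
    obtain ⟨ι, y, hy⟩ := exists_isTranscendenceBasis' (K s) M
    refine hB M m _ R ι y hy.1 (by rw [hy.cardinalMk_eq_trdeg, htr]) hg0 hg hodd
      (fun i => algebraMap L M (l i))
      (fun i => (Algebra.IsAlgebraic.isAlgebraic (l i)).algebraMap)
      (Relation.ReflTransGen.single ?_)
    obtain ⟨h1, h2, Dd, Cc, h3, h4, h5, h6⟩ := hl
    refine ⟨h1, h2, Dd, Cc, h3, ?_, h5, h6⟩
    rw [aeval_map_algebraMap] at h4
    exact h4
  · rintro M _ _ m g R htr ⟨hg0, hg, hodd⟩ l hl
    obtain ⟨ι, y, hy⟩ := exists_isTranscendenceBasis' (K s) M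
    refine hB M m g R ι y hy.1 ?_ hg0 hg hodd l hl
    rw [hy.cardinalMk_eq_trdeg, htr]

end

end Pool.Agent.Results.MP_2619d0_ag.CubicFamilies
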