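import Mathlib
import Pool.Agent.H900.LF.Pr
import Pool.Agent.H900.PW.Rt

/-!
# Very general cubics are not stably rational over the base of a linear projection

Let `X ⊂ ℙ^{N+1}` be a very general complex cubic hypersurface of dimension `N`, and let `Π` be a
linear subspace of dimension `n`, where `2 ≤ n ≤ N / 2`. We put `s = N - n ≥ n`. The linear
projection from `Π` is a fibration `π : X ⇢ ℙ^s` whose fibres are the cubic hypersurfaces
`X ∩ ⟨Π, t⟩` of dimension `n`. The most common way to prove that a variety is rational is to find a
fibration with a rational generic fibre. We show that the linear projections from subspaces of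
dimension at most `N / 2` never do this, not even stably, and not even up to maps of odd degree and
after a change of the base.

Let `K = ℂ(t_1, …, t_s)` be the function field of `ℙ^s`, and let `X_η ⊂ ℙ^{n+1}` be the generic
fibre; it is given by the cubic form
`f = F(x_0, …, x_n, y, t_1 y, …, t_s y)` over `K`, where `F(x_0, …, x_n, z_0, …, z_s)` is the
equation of `X` and `Π = {z_0 = … = z_s = 0}`.

(A) Let `L / K` be an algebraic field extension (the function field of a variety `B` which is
generically finite over `ℙ^s`). There is no dominant rational map of odd degree over `K` from the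
affine space of dimension `n + m` over `L` to `X_η × 𝔸^m`. For `L = K` this says that `X_η × 𝔸^m`
is not rational over `K`, and more generally that all parametrizations of `X_η × 𝔸^m` over `K` have
even degree. (The degree two is possible for `n ≥ 3`, since `X_η` contains lines.) For every `L`
of odd degree over `K` it says that `X_η` is not stably rational over `L`.

(A') More generally, let `r` be a rational map over `L` from an affine space to `X_η`, and let `M` be
a field of odd degree over the function field of `X_η × 𝔸^m` which contains `L`. Then the generic
point of `X_η` is not the value `r(v)` at a point `v` of the affine space over `M`. For every `L` of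
odd degree over `K` (for instance `L = K`) this says that `X_η × 𝔸^m` is not retract rational over
`L`.

(B) Let `M` be a field which is a finite extension of odd degree of the function field of
`X_η × 𝔸^m`. The generic point of `X_η`, as a point over `M`, is not joined by a chain of rational
curves on `X_η` over `M` to any point whose coordinates are algebraic over `K`. (For instance,
`X_η` is not universally R-trivial. The variety `X_η` has many rational points over `K`: those of
`X ∩ Π`.)

All this holds for every irreducible cubic form `F` whose coefficients are not a zero of one of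
countably many nonzero polynomials with rational coefficients, which do not depend on `F`.

Proof. `F` specializes to the cubic form
`F_0 = ∑ z_{ρ(i)} x_i² + z_0 z_1 z_s - z_s³`, where `ρ(i)` are distinct indices with `ρ(0) = 0`,
`ρ(1) = 1` and `ρ(n) = s`. The generic fibre specializes to the union of the hyperplane `y = 0` and
the quadric `q = ∑ t_{ρ(i)} x_i² + (t_1 t_s - t_s³) y² = 0`. The form `q` is anisotropic over `K`
and over its extensions of odd degree (Springer), so all points which are algebraic over `K`
specialize to the hyperplane (at places of `M` at which the generic point of `X × 𝔸^m` specializes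
to a point of odd degree over the generic point of `F_0 = 0`; there is such a place, by the
fundamental identity `∑ e f = n`). The generic point specializes to the
quadric. Rational curves joining the two kinds of points pass through the intersection
of the hyperplane and the quadric at some place of a rational function field. But
`∑ t_{ρ(i)} x_i²` is anisotropic over the function field of `F_0 = 0`, and over
its extensions of odd degree.
-/

set_option autoImplicit false

namespace Pool.Agent.Results.MP_2619d0_ag.LinearFibrations

open MvPolynomial Module

noncomputable section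

/-- the field `K = ℂ(t_1, …, t_s)` -/
abbrev K (s : ℕ) : Type := FractionRing (MvPolynomial (Fin s) ℂ)

/-- the point `(1, t_1, …, t_s)` -/
def t (s : ℕ) : Fin (s + 1) → K s :=
  Fin.cons 1 fun j => algebraMap (MvPolynomial (Fin s) ℂ) (K s) (X j)

/-- The equation `F(x_0, …, x_n, y, t_1 y, …, t_s y)` of the generic fibre of the projection of the
hypersurface `F(x_0, …, x_n, z_0, …, z_s) = 0` from the linear subspace `z_0 = … = z_s = 0`. It is
a form over `K = ℂ(t_1, …, t_s)` in the `n + 2` variables `x_0, …, x_n, y`. (The first `n + 1`
variables of `F` are the `x_i`, the last `s + 1` variables are the `z_j`.) -/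
def fibre {n s : ℕ} (F : MvPolynomial (Fin (n + 1 + (s + 1))) ℂ) :
    MvPolynomial (Fin (n + 2)) (K s) :=
  aeval (Fin.append (fun i : Fin (n + 1) => X i.castSucc)
    (fun j : Fin (s + 1) => C (t s j) * X (Fin.last (n + 1)))) F

/-- The points `u` and `u'` of the projective space over `M` are joined by a rational curve over `M`
on the hypersurface `f = 0`: there are polynomials `C_i` in one variable, of degree at most `D`,
with `f(C) = 0`, such that `u` is the value of `C` at `0` and `u'` is the value at `∞` (the vector
of the coefficients in degree `D`). -/
def Joined {k M : Type} [Field k] [Field M] [Algebra k M] {r : ℕ} (f : MvPolynomial (Fin r) k)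
    (u u' : Fin r → M) : Prop :=
  u ≠ 0 ∧ u' ≠ 0 ∧ ∃ (D : ℕ) (C : Fin r → Polynomial M), (∀ i, (C i).natDegree ≤ D) ∧
    aeval C f = 0 ∧ (∃ a : M, a ≠ 0 ∧ ∀ i, (C i).coeff 0 = a * u i) ∧
    ∃ b : M, b ≠ 0 ∧ ∀ i, (C i).coeff D = b * u' i

/-- the field generated over `k` by the ratios of the coordinates of the point `g` of the projective
space and by the elements `R_l` -/
def pointField (k : Type) {M : Type} [Field k] [Field M] [Algebra k M] {r m : ℕ}
    (g : Fin r → M) (R : Fin m → M) : IntermediateField k M :=
  IntermediateField.adjoin k ({z | ∃ i j, z = g i / g j} ∪ Set.range R)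

/-- the field of rational functions in `N` variables over `L` -/
abbrev RatFun (N : ℕ) (L : Type) [Field L] : Type := FractionRing (MvPolynomial (Fin N) L)

/-- `g` is a point of the hypersurface `f = 0` in the projective space over `M`, and the degree of
`M` over the field generated over `k` by `(g, R)` is odd (`finrank` is `0` if the degree is
infinite) -/
def OddPoint (k : Type) {M : Type} [Field k] [Field M] [Algebra k M] {r m : ℕ}
    (f : MvPolynomial (Fin r) k) (g : Fin r → M) (R : Fin m → M) : Prop :=
  g ≠ 0 ∧ aeval g f = 0 ∧ Odd (finrank (pointField k g R) M)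

/-- For every algebraic extension `L` of `k`, every `m` and every rational map `(g, R)` over `k`
from the affine space of dimension `n + m` over `L` to the product of the
hypersurface `f = 0` in the projective space of dimension `n + 1` and the affine space of
dimension `m`, the degree of `(g, R)` is even or infinite. -/
def NoOddParametrization {k : Type} [Field k] {n : ℕ} (f : MvPolynomial (Fin (n + 2)) k) : Prop :=
  ∀ (L : Type) [Field L] [Algebra k L] [Algebra.IsAlgebraic k L] (m : ℕ)
    (g : Fin (n + 2) → RatFun (n + m) L) (R : Fin m → RatFun (n + m) L), ¬ OddPoint k f g R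

/-- There are no algebraic extension `L` of `k`, rational map `r` over `L` from an affine space to
the hypersurface `X = (f = 0)`, field `M` containing `L` and point `v` of the affine space over `M`,
such that `g = r(v)` is a generic point of `X` and `M` is of odd degree over the field `k(g, R)` of a
generic point `(g, R)` of the product of `X` with an affine space of dimension `m` (the
transcendence degree `n + m` of `M` says that this point is generic). For `L = k`, `m = 0` and
`M = k(g)` this says that `X` is not retract rational: if `r ∘ i` is the identity of `X` for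
rational maps `i` from `X` to the affine space and `r` back, then `g = r(v)` for `v = i(g)`. The
polynomials `r_0, …, r_{n+1}` are homogeneous coordinates of the map `r`. -/
def NoOddRetraction {k : Type} [Field k] {n : ℕ} (f : MvPolynomial (Fin (n + 2)) k) : Prop :=
  ∀ (L : Type) [Field L] [Algebra k L] [Algebra.IsAlgebraic k L] (N : ℕ)
    (r : Fin (n + 2) → MvPolynomial (Fin N) L), aeval r f = 0 →
    ∀ (M : Type) [Field M] [Algebra k M] [Algebra L M] [IsScalarTower k L M] (v : Fin N → M)
      (m : ℕ) (R : Fin m → M), Algebra.trdeg k M = ((n + m : ℕ) : Cardinal) →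
      ¬ OddPoint k f (fun i => aeval v (r i)) R

/-- Let `g` be a point of the hypersurface `f = 0` in the projective space of dimension `n + 1`,
with coordinates in an extension `M` of `k` of transcendence degree `n + m`, and let
`R_1, …, R_m ∈ M`. We assume that the degree of `M` over the field generated by `(g, R)`
is odd (so `(g, R)` is a generic point of the product of the hypersurface and the affine space of
dimension `m`). Then `g` is not joined by a chain of rational curves over `M` on the hypersurface to
any point whose coordinates are algebraic over `k`. -/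
def NotConnected {k : Type} [Field k] {n : ℕ} (f : MvPolynomial (Fin (n + 2)) k) : Prop :=
  ∀ (M : Type) [Field M] [Algebra k M] (m : ℕ) (g : Fin (n + 2) → M) (R : Fin m → M),
    Algebra.trdeg k M = ((n + m : ℕ) : Cardinal) → OddPoint k f g R →
    ∀ p : Fin (n + 2) → M, (∀ i, IsAlgebraic k (p i)) → ¬ Relation.ReflTransGen (Joined f) g p

/-- the exponents of the monomials of degree three -/
abbrev Mon (r : ℕ) : Type := {β : Fin r →₀ ℕ // β.degree = 3}

/-- The property `P` holds for all irreducible cubic forms outside a countable union of
hypersurfaces of the space of cubic forms: there is a countable set `Ps` of nonzero polynomials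
with rational coefficients in the coefficients of the cubic forms, such that `P F` holds
for every irreducible cubic form `F` such that no member of `Ps` vanishes at the coefficients
of `F`. -/
def VeryGeneral (r : ℕ) (P : MvPolynomial (Fin r) ℂ → Prop) : Prop :=
  ∃ Ps : Set (MvPolynomial (Mon r) ℚ), Ps.Countable ∧ 0 ∉ Ps ∧
    ∀ F : MvPolynomial (Fin r) ℂ, F.IsHomogeneous 3 → Irreducible F →
      (∀ Q ∈ Ps, aeval (fun β : Mon r => coeff β.1 F) Q ≠ 0) → P F

/-- **Linear fibrations of very general cubics.** Let `2 ≤ n ≤ s`, and let `F = 0` be a very general
cubic hypersurface of dimension `n + s`. Then the generic fibre of the projection of the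
hypersurface from the linear subspace `z_0 = … = z_s = 0` (of dimension `n`) has the properties
(A), (A') and (B). -/
theorem result (n s : ℕ) (hn : 2 ≤ n) (hs : n ≤ s) :
    VeryGeneral (n + 1 + (s + 1)) fun F =>
      NoOddParametrization (fibre (n := n) (s := s) F) ∧
        NoOddRetraction (fibre (n := n) (s := s) F) ∧
        NotConnected (fibre (n := n) (s := s) F) := by
  classical
  obtain ⟨p, rfl⟩ : ∃ p, n = p + 2 := ⟨n - 2, by omega⟩
  obtain ⟨q, rfl⟩ : ∃ q, s = q + 2 := ⟨s - 2, by omega⟩
  have hpq : p ≤ q := by omega
  refine ⟨{P | P ≠ 0}, ?_, fun h => h rfl, ?_⟩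
  · have : Countable (MvPolynomial (Mon (p + 2 + 1 + (q + 2 + 1))) ℚ) :=
      AddMonoidAlgebra.coeff_injective.countable
    exact Set.to_countable _
  intro F hF hirr hP
  have hind : AlgebraicIndependent ℚ
      (fun β : {β : Fin (p + 3 + (q + 3)) →₀ ℕ // β.degree = 3} => coeff β.1 F) := by
    rw [algebraicIndependent_iff]
    intro P h
    by_contra h0
    exact hP P h0 h
  have hB : ∀ (M : Type) [Field M] [Algebra (K (q + 2)) M] (m : ℕ) (g : Fin (p + 2 + 2) → M)
      (R : Fin m → M) (ι' : Type) (y : ι' → M), AlgebraicIndependent (K (q + 2)) y →
      ((p + 2 + m : ℕ) : Cardinal) ≤ Cardinal.mk ι' → g ≠ 0 →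
      aeval g (fibre (n := p + 2) (s := q + 2) F) = 0 →
      Odd (finrank (pointField (K (q + 2)) g R) M) →
      ∀ l : Fin (p + 2 + 2) → M, (∀ i, IsAlgebraic (K (q + 2)) (l i)) →
        ¬ Relation.ReflTransGen (Joined (fibre (n := p + 2) (s := q + 2) F)) g l := by
    intro M _ _ m g R ι' y hy hc hg0 hg hodd l hl
    exact Pool.Agent.H900.LF.main_aux (p := p) (q := q) hpq hF hirr hind g R hg0 hg hy hc hodd l hl
  refine ⟨?_, ?_, ?_⟩
  · rintro L _ _ _ m g R ⟨hg0, hg, hodd⟩
    set f := fibre (n := p + 2) (s := q + 2) F with hf
    have hfh : f.IsHomogeneous 3 := Pool.Agent.H900.LF.fibre_hom hF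
    have hinf : Infinite L := Infinite.of_injective _ (algebraMap (K (q + 2)) L).injective
    obtain ⟨l, -, hl⟩ := Pool.Agent.H900.LF.param_joined (N := p + 2 + m)
      (hfh.map (algebraMap (K (q + 2)) L)) g hg0 (by rw [aeval_map_algebraMap, hg])
    have hy := (Pool.Agent.H900.LF.vars_indep L (p + 2 + m)).restrictScalars
      (R := K (q + 2)) (algebraMap (K (q + 2)) L).injective
    refine hB _ m g R _ _ hy (by rw [Cardinal.mk_fin]) hg0 hg hodd
      (fun i => algebraMap L _ (l i))
      (fun i => (Algebra.IsAlgebraic.isAlgebraic (l i)).algebraMap)
      (Relation.ReflTransGen.single ?_)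
    obtain ⟨h1, h2, D, Cc, h3, h4, h5, h6⟩ := hl
    refine ⟨h1, h2, D, Cc, h3, ?_, h5, h6⟩
    rw [aeval_map_algebraMap] at h4
    exact h4
  · rintro L _ _ _ N r hr M _ _ _ _ v m R htr ⟨hg0, hg, hodd⟩
    set f := fibre (n := p + 2) (s := q + 2) F with hf
    have hfh : f.IsHomogeneous 3 := Pool.Agent.H900.LF.fibre_hom hF
    have hinf : Infinite L := Infinite.of_injective _ (algebraMap (K (q + 2)) L).injective
    obtain ⟨l, -, hl⟩ := Pool.Agent.H900.PW.retract_joined (M := M)
      (hfh.map (algebraMap (K (q + 2)) L)) r (by rw [aeval_map_algebraMap, hr]) v hg0
    obtain ⟨ι, y, hy⟩ := exists_isTranscendenceBasis' (K (q + 2)) M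
    refine hB M m _ R ι y hy.1 (by rw [hy.cardinalMk_eq_trdeg, htr]) hg0 hg hodd
      (fun i => algebraMap L M (l i))
      (fun i => (Algebra.IsAlgebraic.isAlgebraic (l i)).algebraMap)
      (Relation.ReflTransGen.single ?_)
    obtain ⟨h1, h2, D, Cc, h3, h4, h5, h6⟩ := hl
    refine ⟨h1, h2, D, Cc, h3, ?_, h5, h6⟩
    rw [aeval_map_algebraMap] at h4
    exact h4
  · rintro M _ _ m g R htr ⟨hg0, hg, hodd⟩ l hl
    obtain ⟨ι, y, hy⟩ := exists_isTranscendenceBasis' (K (q + 2)) M
    refine hB M m g R ι y hy.1 ?_ hg0 hg hodd l hl
    rw [hy.cardinalMk_eq_trdeg, htr]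

end

end Pool.Agent.Results.MP_2619d0_ag.LinearFibrations
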