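import Mathlib
import Pool.Agent.H901.TS.Gn
import Pool.Agent.H900.PW.Rt

/-!
# Families of cubic hypersurfaces of even dimension through linear spaces and scrolls

The cubic hypersurfaces of even dimension `2 m` which are known to be rational contain
`m`-dimensional subvarieties of `ℙ^(2m+1)` with one apparent double point (through the general point
of `ℙ^(2m+1)` there is exactly one secant line). The basic examples are two disjoint linear spaces of
dimension `m`, and the smooth rational normal scrolls of dimension `m` and degree `m + 2` in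
`ℙ^(2m+1)`. These constructions work over every field of characteristic zero.

We consider the degenerate cases of these examples, two linear spaces of dimension `m` which meet in
one point, and the smooth rational normal scrolls of dimension `m` and degree `m + 1` in `ℙ^(2m)`. We
prove, for all `m`, that the very general cubic hypersurfaces which contain such a subvariety do not
have a rational parametrization (stable or not) which depends rationally on parameters, or
rationally up to a choice of odd degree.

**The theorem.** Let `T` be a set of squarefree monomials `t^τ` in `t_1, …, t_s` which contains `1`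
and at least one of the `t_i` (for instance `s = m` and `T = {1, t_1, …, t_m}`, the linear systems of
dimension `m`). For a subset `Y` of `ℙ^(n+1)` we consider cubic forms `F_τ`, `τ ∈ T`, which are very
general among the cubic forms which vanish on `Y`, and the cubic hypersurface
`X_η : ∑_{τ ∈ T} t^τ F_τ = 0` of dimension `n` over `K = ℂ(t_1, …, t_s)`. It has the properties
(A), (A') and (B) below if `n = 2 m`, `T` has at least `m + 1` elements and `Y` is any subset of

(a) the union of the linear space `x_0 = x_{2m+1} = 0` (of codimension two) and of the linear space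
`x_1 = … = x_m = x_{2m+1} = 0` (of dimension `m`); for instance two linear spaces of dimension
`m` which meet in exactly one point, such as the latter and `x_0 = x_{m+2} = … = x_{2m+1} = 0`;

(b) the union of the latter and of the smooth rational normal scroll of dimension `m` and degree
`m + 1` in the hyperplane `x_{2m+1} = 0`, where the matrix with the rows `x_0, x_{m+1}, …, x_{2m}`
and `x_{2m}, x_1, …, x_m` has rank at most one.

More generally let `n = a + b` with `1 ≤ a ≤ |T|` and `b < |T|`, and let `r_1, …, r_a` be arbitrary
cubic forms in `x_1, …, x_n`. These properties also hold if `Y` is any subset of the subvariety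

(c) `x_{n+1} = 0`, `x_0 x_j² = r_j (x_1, …, x_n)` for `j = 1, …, a`.

(A) Let `L / K` be an algebraic field extension. There is no dominant rational map of odd degree
over `K` from the affine space of dimension `n + m'` over `L` to `X_η × 𝔸^m'`. For every `L` of odd
degree over `K` (for instance `L = K`) this says that `X_η` is not stably rational over `L`.

(A') More generally, let `r` be a rational map over `L` from an affine space to `X_η`, and let `M` be
a field of odd degree over the function field of `X_η × 𝔸^m'` which contains `L`. Then the generic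
point of `X_η` is not the value `r(v)` at a point `v` of the affine space over `M`. For every `L` of
odd degree over `K` (for instance `L = K`) this says that `X_η × 𝔸^m'` is not retract rational over
`L`.

(B) Let `M` be a field which is a finite extension of odd degree of the function field of
`X_η × 𝔸^m'`. The generic point of `X_η`, as a point over `M`, is not joined by a chain of rational
curves on `X_η` over `M` to any point whose coordinates are algebraic over `K`.

On the other hand, `X_η` is rational over `K` if `n = 2 m` and `Y` consists of two disjoint linear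
spaces of dimension `m`, or if `Y` is a scroll of dimension `m` and degree `m + 2` in `ℙ^(2m+1)`. And in
the cases (a), (b) it is unirational of degree two over `K`, since it contains lines over `K`.

**The proof.** A very general member specializes (after the change of coordinates
`x_0 ↦ c⁻¹ x_0`, `x_{n+1} ↦ c⁻¹ x_{n+1}` and multiplication with `c`, where `c` is a new
transcendental number) to the special cubic

`x_0 q + x_{n+1} q' + x_{n+1} (x_0² + x_{n+1}²) + t_i x_0 x_{n+1}² = 0`

for `c = 0`, where `q` is the sum of `t^τ x_j²` for `j ≤ a`, with different elements `τ` of `T`, and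
`q'` is the sum of `t^τ x_j²` for `a < j ≤ n`, with different `τ ≠ ∅`; this uses that the cubic
forms `x_0 x_j² - r_j`, `j ≤ a`, and all multiples of `x_{n+1}` vanish on `Y`. For the special cubic
one considers the class of `x_0 x_{n+1}` modulo the values of the Pfister form `⟨⟨t_1, …, t_s⟩⟩`. This
method is due to helper900 (`CubicFamilies` on this page, the case of all cubic forms, and
`MP_ffd2c1_ag.PrescribedSections`); the version for linear systems is the one of
`MP_6fa476_ag.NetsThroughSurfaces` (for cubic fourfolds, `m = 2`, where also Veronese surfaces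
are considered). New here are all even dimensions, in particular the linear spaces and scrolls, and
the case (c).
-/

set_option autoImplicit false

namespace Pool.Agent.Results.MP_2619d0_ag.MeetingSubspacesAndScrolls

open MvPolynomial Module

noncomputable section

/-- the field `K = ℂ(t_1, …, t_s)` -/
abbrev K (s : ℕ) : Type := FractionRing (MvPolynomial (Fin s) ℂ)

/-- the parameters `t_1, …, t_s` -/
def t (s : ℕ) (j : Fin s) : K s := algebraMap (MvPolynomial (Fin s) ℂ) (K s) (X j)

/-- The families `(F_τ)` of forms in `x_0, …, x_{n+1}`. Here `τ` runs through a finite set `T` of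
subsets of `{1, …, s}`; it stands for the monomial `t^τ`, the product of the `t_j` with `j ∈ τ`. -/
abbrev Family {s : ℕ} (T : Finset (Finset (Fin s))) (n : ℕ) : Type :=
  {τ // τ ∈ T} → MvPolynomial (Fin (n + 2)) ℂ

/-- The equation `∑_τ t^τ F_τ` of the generic member of the family of cubic hypersurfaces which is
given by the cubic forms `F_τ`. -/
def member {s n : ℕ} (T : Finset (Finset (Fin s))) (F : Family T n) :
    MvPolynomial (Fin (n + 2)) (K s) :=
  ∑ τ : {τ // τ ∈ T}, C (∏ j ∈ τ.1, t s j) * map (algebraMap ℂ (K s)) (F τ)

/-- The points `u` and `u'` of the projective space over `M` are joined by a rational curve over `M`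
on the hypersurface `f = 0`: there are polynomials `C_i` in one variable, of degree at most `D`,
with `f(C) = 0`, such that `u` is the value of `C` at `0` and `u'` is the value at `∞` (the vector
of the coefficients in degree `D`). -/
def Joined {k M : Type} [Field k] [Field M] [Algebra k M] {r : ℕ} (f : MvPolynomial (Fin r) k)
    (u u' : Fin r → M) : Prop :=
  u ≠ 0 ∧ u' ≠ 0 ∧ ∃ (D : ℕ) (C : Fin r → Polynomial M), (∀ i, (C i).natDegree ≤ D) ∧
    aeval C f = 0 ∧ (∃ a : M, a ≠ 0 ∧ ∀ i, (C i).coeff 0 = a * u i) ∧
    ∃ b : M, b ≠ 0 ∧ ∀ i, (C i).coeff D = b * u' i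

/-- the field generated over `k` by the ratios of the coordinates of the point `g` of the projective
space and by the elements `R_l` -/
def pointField (k : Type) {M : Type} [Field k] [Field M] [Algebra k M] {r m : ℕ}
    (g : Fin r → M) (R : Fin m → M) : IntermediateField k M :=
  IntermediateField.adjoin k ({z | ∃ i j, z = g i / g j} ∪ Set.range R)

/-- the field of rational functions in `N` variables over `L` -/
abbrev RatFun (N : ℕ) (L : Type) [Field L] : Type := FractionRing (MvPolynomial (Fin N) L)

/-- `g` is a point of the hypersurface `f = 0` in the projective space over `M`, and the degree of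
`M` over the field generated over `k` by `(g, R)` is odd (`finrank` is `0` if the degree is
infinite) -/
def OddPoint (k : Type) {M : Type} [Field k] [Field M] [Algebra k M] {r m : ℕ}
    (f : MvPolynomial (Fin r) k) (g : Fin r → M) (R : Fin m → M) : Prop :=
  g ≠ 0 ∧ aeval g f = 0 ∧ Odd (finrank (pointField k g R) M)

/-- (A) For every algebraic extension `L` of `k`, every `m` and every rational map `(g, R)` over `k`
from the affine space of dimension `n + m` over `L` to the product of the hypersurface `f = 0` in the
projective space of dimension `n + 1` and the affine space of dimension `m`, the degree of `(g, R)` is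
even or infinite. -/
def NoOddParametrization {k : Type} [Field k] {n : ℕ} (f : MvPolynomial (Fin (n + 2)) k) : Prop :=
  ∀ (L : Type) [Field L] [Algebra k L] [Algebra.IsAlgebraic k L] (m : ℕ)
    (g : Fin (n + 2) → RatFun (n + m) L) (R : Fin m → RatFun (n + m) L), ¬ OddPoint k f g R

/-- (A') There are no algebraic extension `L` of `k`, rational map `r` over `L` from an affine space
to the hypersurface `X = (f = 0)`, field `M` containing `L` and point `v` of the affine space over
`M`, such that `g = r(v)` is a generic point of `X` and `M` is of odd degree over the field `k(g, R)`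
of a generic point `(g, R)` of the product of `X` with an affine space of dimension `m` (the
transcendence degree `n + m` of `M` says that this point is generic). For `L = k`, `m = 0` and
`M = k(g)` this says that `X` is not retract rational: if `r ∘ i` is the identity of `X` for
rational maps `i` from `X` to the affine space and `r` back, then `g = r(v)` for `v = i(g)`. The
polynomials `r_0, …, r_{n+1}` are homogeneous coordinates of the map `r`. -/
def NoOddRetraction {k : Type} [Field k] {n : ℕ} (f : MvPolynomial (Fin (n + 2)) k) : Prop :=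
  ∀ (L : Type) [Field L] [Algebra k L] [Algebra.IsAlgebraic k L] (N : ℕ)
    (r : Fin (n + 2) → MvPolynomial (Fin N) L), aeval r f = 0 →
    ∀ (M : Type) [Field M] [Algebra k M] [Algebra L M] [IsScalarTower k L M] (v : Fin N → M)
      (m : ℕ) (R : Fin m → M), Algebra.trdeg k M = ((n + m : ℕ) : Cardinal) →
      ¬ OddPoint k f (fun i => aeval v (r i)) R

/-- (B) Let `g` be a point of the hypersurface `f = 0` in the projective space of dimension `n + 1`,
with coordinates in an extension `M` of `k` of transcendence degree `n + m`, and let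
`R_1, …, R_m ∈ M`. We assume that the degree of `M` over the field generated by `(g, R)`
is odd (so `(g, R)` is a generic point of the product of the hypersurface and the affine space of
dimension `m`). Then `g` is not joined by a chain of rational curves over `M` on the hypersurface to
any point whose coordinates are algebraic over `k`. -/
def NotConnected {k : Type} [Field k] {n : ℕ} (f : MvPolynomial (Fin (n + 2)) k) : Prop :=
  ∀ (M : Type) [Field M] [Algebra k M] (m : ℕ) (g : Fin (n + 2) → M) (R : Fin m → M),
    Algebra.trdeg k M = ((n + m : ℕ) : Cardinal) → OddPoint k f g R →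
    ∀ p : Fin (n + 2) → M, (∀ i, IsAlgebraic k (p i)) → ¬ Relation.ReflTransGen (Joined f) g p

/-- The linear system of all families of cubic forms `F_τ` which vanish at all points of a given
set `Y` (the affine cone over a subset of the projective space, or any set of points). -/
def cubicsThrough {s n : ℕ} (T : Finset (Finset (Fin s))) (Y : Set (Fin (n + 2) → ℂ)) :
    Submodule ℂ (Family T n) where
  carrier := {F | ∀ τ, (F τ).IsHomogeneous 3 ∧ ∀ x ∈ Y, aeval x (F τ) = 0}
  add_mem' := by
    intro F G hF hG τ
    refine ⟨(hF τ).1.add (hG τ).1, fun x hx => ?_⟩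
    rw [Pi.add_apply, map_add, (hF τ).2 x hx, (hG τ).2 x hx, add_zero]
  zero_mem' := by
    intro τ
    exact ⟨isHomogeneous_zero _ _ _, fun x _ => map_zero _⟩
  smul_mem' := by
    intro c F hF τ
    refine ⟨?_, fun x hx => ?_⟩
    · rw [Pi.smul_apply, smul_eq_C_mul, ← zero_add 3]
      exact (isHomogeneous_C _ _).mul (hF τ).1
    · rw [Pi.smul_apply, map_smul, (hF τ).2 x hx, smul_zero]

/-- The property `P` holds for the very general family of cubic forms which vanish on `Y`: there is a
countable set `Ps` of polynomials in the coefficients of the forms `F_τ`, none of which vanishes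
identically on the linear space of all families of cubic forms which vanish on `Y`, such that `P F`
holds for every `F` in this space at which no member of `Ps` vanishes. -/
def VeryGeneral {s n : ℕ} (T : Finset (Finset (Fin s))) (Y : Set (Fin (n + 2) → ℂ))
    (P : Family T n → Prop) : Prop :=
  ∃ Ps : Set (MvPolynomial ({τ // τ ∈ T} × (Fin (n + 2) →₀ ℕ)) ℂ), Ps.Countable ∧
    (∀ Q ∈ Ps, ∃ F ∈ cubicsThrough T Y,
      aeval (fun c : {τ // τ ∈ T} × (Fin (n + 2) →₀ ℕ) => coeff c.2 (F c.1)) Q ≠ 0) ∧
    ∀ F ∈ cubicsThrough T Y,
      (∀ Q ∈ Ps, aeval (fun c : {τ // τ ∈ T} × (Fin (n + 2) →₀ ℕ) => coeff c.2 (F c.1)) Q ≠ 0) →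
        P F

/-- the index of the variable `x_{j+1}`, `j = 0, …, n - 1`, among `x_0, …, x_{n+1}` -/
def mid {n : ℕ} (j : Fin n) : Fin (n + 2) := ⟨j.1 + 1, by omega⟩

/-- (c) The subvariety of the hyperplane `x_{n+1} = 0`, `n = a + b`, with the equations
`x_0 x_j² = r_j (x)`, `j = 1, …, a`. -/
def residual {a b : ℕ} (r : Fin a → MvPolynomial (Fin (a + b + 2)) ℂ) :
    Set (Fin (a + b + 2) → ℂ) :=
  {x | x (Fin.last (a + b + 1)) = 0 ∧
    ∀ j : Fin a, x 0 * x (mid (Fin.castAdd b j)) ^ 2 = aeval x (r j)}

/-- (a) The union of the linear space `x_0 = x_{2m+1} = 0` of codimension two and of the linear space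
`x_1 = … = x_m = x_{2m+1} = 0` of dimension `m`. -/
def spaceAndSubspace (m : ℕ) : Set (Fin (m + m + 2) → ℂ) :=
  {x | x (Fin.last (m + m + 1)) = 0 ∧
    (x 0 = 0 ∨ ∀ j : Fin m, x (mid (Fin.castAdd m j)) = 0)}

/-- the vector `x_0, x_{m+1}, …, x_{2m}` -/
def row (m : ℕ) (x : Fin (m + m + 2) → ℂ) : Fin (m + 1) → ℂ :=
  Fin.cons (x 0) fun j : Fin m => x (mid (Fin.natAdd m j))

/-- the vector `x_{2m}, x_1, …, x_m` -/
def row' (m : ℕ) (x : Fin (m + m + 2) → ℂ) : Fin (m + 1) → ℂ :=
  Fin.cons (x ⟨m + m, by omega⟩) fun j : Fin m => x (mid (Fin.castAdd m j))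

/-- (b) The union of the rational normal scroll of dimension `m` and degree `m + 1` in the hyperplane
`x_{2m+1} = 0` where the matrix with the rows `x_0, x_{m+1}, …, x_{2m}` and `x_{2m}, x_1, …, x_m` has
rank at most one, and of the linear space `x_1 = … = x_m = x_{2m+1} = 0`. -/
def scrollAndSubspace (m : ℕ) : Set (Fin (m + m + 2) → ℂ) :=
  {x | x (Fin.last (m + m + 1)) = 0 ∧
    ((∀ i j, row m x i * row' m x j = row m x j * row' m x i) ∨
      ∀ j : Fin m, x (mid (Fin.castAdd m j)) = 0)}

/-- The generic member of a family of cubic hypersurfaces has the properties (A), (A') and (B). -/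
def NotRetractRational {s n : ℕ} (T : Finset (Finset (Fin s))) (F : Family T n) : Prop :=
  NoOddParametrization (member T F) ∧ NoOddRetraction (member T F) ∧ NotConnected (member T F)

theorem general {s n : ℕ} {T : Finset (Finset (Fin s))} (h0 : ∅ ∈ T) {i0 : Fin s}
    (hT1 : {i0} ∈ T) (Y : Set (Fin (n + 2) → ℂ)) (D : Pool.Agent.H900.PN.Dat n (Fin s)) (j0 : Fin n)
    (hj0 : D.side j0 = false) (hj1 : D.sg j0 = {i0}) (hTD : ∀ j, D.sg j ∈ T)
    (hE1 : ∃ R : Family T n, (∀ τ β, coeff β (R τ) ≠ 0 → Pool.Agent.H900.PC.ey β = 0) ∧
      (fun τ => Pool.Agent.H901.TS.Ph1 D τ.1 + R τ) ∈ cubicsThrough T Y)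
    (hE3 : ∃ R : Family T n, (∀ τ β, coeff β (R τ) ≠ 0 → Pool.Agent.H900.PC.ey β < 3) ∧
      (fun τ => Pool.Agent.H901.TS.Ph3 n i0 τ.1 + R τ) ∈ cubicsThrough T Y) :
    VeryGeneral T Y (NotRetractRational T) := by
  classical
  obtain ⟨Ps, hPs, hne, hgen⟩ := Pool.Agent.H901.TS.linear_system D (i0 := i0) (j0 := j0)
    h0 (hTD j0) (cubicsThrough T Y) (fun F hF τ => (hF τ).1) hE1 hE3 0
    (fun τ => isHomogeneous_zero _ _ _) (fun τ β h => absurd (coeff_zero β) h)
  refine ⟨Ps, hPs, fun Q hQ => ?_, fun F hF hQ => ?_⟩
  · obtain ⟨F, hF, hF'⟩ := hne Q hQ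
    rw [sub_zero] at hF
    exact ⟨F, hF, hF'⟩
  let F' : Finset (Fin s) → MvPolynomial (Fin (n + 2)) ℂ := fun τ =>
    if h : τ ∈ T then F ⟨τ, h⟩ else 0
  have hF' : ∀ τ : {τ // τ ∈ T}, F' τ.1 = F τ := fun τ => dif_pos τ.2
  have hex := hgen F (by rw [sub_zero]; exact hF) hQ F' hF'
  have hfam : member T F = Pool.Agent.H900.PN.fam T F' := by
    unfold member Pool.Agent.H900.PN.fam
    rw [← Finset.sum_coe_sort T]
    refine Finset.sum_congr rfl fun τ _ => ?_
    rw [hF' τ]
    rfl
  have hFh : ∀ τ ∈ T, (F' τ).IsHomogeneous 3 := by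
    intro τ hτ
    rw [hF' ⟨τ, hτ⟩]
    exact (hF ⟨τ, hτ⟩).1
  unfold NotRetractRational
  rw [hfam]
  have hB : ∀ (M : Type) [Field M] [Algebra (K s) M] (m : ℕ) (g : Fin (n + 2) → M)
      (R : Fin m → M) (ι' : Type) (y : ι' → M), AlgebraicIndependent (K s) y →
      ((n + m : ℕ) : Cardinal) ≤ Cardinal.mk ι' → g ≠ 0 →
      aeval g (Pool.Agent.H900.PN.fam T F') = 0 →
      Odd (finrank (pointField (K s) g R) M) →
      ∀ l : Fin (n + 2) → M, (∀ i, IsAlgebraic (K s) (l i)) →
        ¬ Relation.ReflTransGen (Joined (Pool.Agent.H900.PN.fam T F')) g l := by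
    intro M _ _ m g R ι' y hy hc hg0 hg hodd l hl
    exact Pool.Agent.H901.TS.main_scale D hj0 hj1 h0 hT1 hTD hFh hex g R
      hg0 hg hy hc hodd l hl
  refine ⟨?_, ?_, ?_⟩
  · rintro L _ _ _ m g R ⟨hg0, hg, hodd⟩
    set f := Pool.Agent.H900.PN.fam T F' with hf
    have hfh : f.IsHomogeneous 3 := Pool.Agent.H900.PN.fam_hom hFh
    have hinf : Infinite L := Infinite.of_injective _ (algebraMap (K s) L).injective
    obtain ⟨l, -, hl⟩ := Pool.Agent.H900.LF.param_joined (N := n + m)
      (hfh.map (algebraMap (K s) L)) g hg0 (by rw [aeval_map_algebraMap, hg])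
    have hy := (Pool.Agent.H900.LF.vars_indep L (n + m)).restrictScalars
      (R := K s) (algebraMap (K s) L).injective
    refine hB _ m g R _ _ hy (by rw [Cardinal.mk_fin]) hg0 hg hodd
      (fun i => algebraMap L _ (l i))
      (fun i => (Algebra.IsAlgebraic.isAlgebraic (l i)).algebraMap)
      (Relation.ReflTransGen.single ?_)
    obtain ⟨h1, h2, Dd, Cc, h3, h4, h5, h6⟩ := hl
    refine ⟨h1, h2, Dd, Cc, h3, ?_, h5, h6⟩
    rw [aeval_map_algebraMap] at h4
    exact h4
  · rintro L _ _ _ N r hr M _ _ _ _ v m R htr ⟨hg0, hg, hodd⟩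
    set f := Pool.Agent.H900.PN.fam T F' with hf
    have hfh : f.IsHomogeneous 3 := Pool.Agent.H900.PN.fam_hom hFh
    have hinf : Infinite L := Infinite.of_injective _ (algebraMap (K s) L).injective
    obtain ⟨l, -, hl⟩ := Pool.Agent.H900.PW.retract_joined (M := M)
      (hfh.map (algebraMap (K s) L)) r (by rw [aeval_map_algebraMap, hr]) v hg0
    obtain ⟨ι, y, hy⟩ := exists_isTranscendenceBasis' (K s) M
    refine hB M m _ R ι y hy.1 (by rw [hy.cardinalMk_eq_trdeg, htr]) hg0 hg hodd
      (fun i => algebraMap L M (l i))
      (fun i => (Algebra.IsAlgebraic.isAlgebraic (l i)).algebraMap)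
      (Relation.ReflTransGen.single ?_)
    obtain ⟨h1, h2, Dd, Cc, h3, h4, h5, h6⟩ := hl
    refine ⟨h1, h2, Dd, Cc, h3, ?_, h5, h6⟩
    rw [aeval_map_algebraMap] at h4
    exact h4
  · rintro M _ _ m g R htr ⟨hg0, hg, hodd⟩ l hl
    obtain ⟨ι, y, hy⟩ := exists_isTranscendenceBasis' (K s) M
    refine hB M m g R ι y hy.1 ?_ hg0 hg hodd l hl
    rw [hy.cardinalMk_eq_trdeg, htr]

/-- **Families of cubic hypersurfaces.** Let `T` be a set of squarefree monomials in `t_1, …, t_s`
which contains `1` and one of the `t_i`.

(I) Let `m ≥ 1`, let `T` have at least `m + 1` elements, and let `Y` be any subset of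
`spaceAndSubspace m` (for instance two linear spaces of dimension `m` which meet in exactly one point)
or of `scrollAndSubspace m` (for instance a smooth rational normal scroll of dimension `m` in a
hyperplane). Then the generic member of the very general family of cubic hypersurfaces of dimension
`2 m` which contain `Y` has the properties (A), (A') and (B).

(II) Let `1 ≤ a ≤ |T|` and `b < |T|`, let `r_1, …, r_a` be cubic forms in `x_1, …, x_{a+b}`, and let
`Y` be any subset of `x_{a+b+1} = 0`, `x_0 x_j² = r_j`, `j = 1, …, a`. Then the generic member of the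
very general family of cubic hypersurfaces of dimension `a + b` which contain `Y` has the properties
(A), (A') and (B). -/
theorem result (s : ℕ) (T : Finset (Finset (Fin s))) (h0 : ∅ ∈ T) (h1 : ∃ i, {i} ∈ T) :
    (∀ m : ℕ, 1 ≤ m → m < T.card → ∀ Y : Set (Fin (m + m + 2) → ℂ),
      (Y ⊆ spaceAndSubspace m ∨ Y ⊆ scrollAndSubspace m) →
        VeryGeneral T Y (NotRetractRational T)) ∧
    ∀ a b : ℕ, 1 ≤ a → a ≤ T.card → b < T.card →
      ∀ r : Fin a → MvPolynomial (Fin (a + b + 2)) ℂ,
      (∀ j, (r j).IsHomogeneous 3 ∧
        ∀ β, coeff β (r j) ≠ 0 → β 0 = 0 ∧ β (Fin.last (a + b + 1)) = 0) →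
      ∀ Y : Set (Fin (a + b + 2) → ℂ), Y ⊆ residual r →
        VeryGeneral T Y (NotRetractRational T) := by
  classical
  obtain ⟨i0, hT1⟩ := h1
  have main : ∀ a b : ℕ, 1 ≤ a → a ≤ T.card → b < T.card →
      ∀ r : Fin a → MvPolynomial (Fin (a + b + 2)) ℂ,
      (∀ j, (r j).IsHomogeneous 3 ∧
        ∀ β, coeff β (r j) ≠ 0 → β 0 = 0 ∧ β (Fin.last (a + b + 1)) = 0) →
      ∀ Y : Set (Fin (a + b + 2) → ℂ), Y ⊆ residual r →
        VeryGeneral T Y (NotRetractRational T) := by
    intro a b ha1 ha hb r hr Y hY
    obtain ⟨D, j0, hj0, hj1, hTD, hl, hrr⟩ := Pool.Agent.H901.TS.exists_dat2 h0 hT1 ha1 ha hb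
    refine general h0 hT1 Y D j0 hj0 hj1 hTD ⟨fun τ => ∑ j : Fin a,
      if D.sg (Fin.castAdd b j) = τ.1 then - r j else 0, fun τ β h => ?_, fun τ => ⟨?_,
      fun x hx => ?_⟩⟩ ⟨0, fun τ β h => absurd (coeff_zero β) h, fun τ => ⟨?_, fun x hx => ?_⟩⟩
    · show β 0 + β (Fin.last (a + b + 1)) = 0
      rw [coeff_sum] at h
      obtain ⟨j, -, hj⟩ := Finset.exists_ne_zero_of_sum_ne_zero h
      split_ifs at hj
      · rw [coeff_neg] at hj
        obtain ⟨h2, h3⟩ := (hr j).2 β (neg_ne_zero.1 hj)
        rw [h2, h3]
      · exact absurd (coeff_zero β) hj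
    · refine (Pool.Agent.H901.TS.Ph1_hom D τ.1).add (IsHomogeneous.sum _ _ _ fun j _ => ?_)
      split_ifs
      · exact (hr j).1.neg
      · exact isHomogeneous_zero _ _ _
    · obtain ⟨h2, h3⟩ := hY hx
      exact Pool.Agent.H901.TS.Ph1_zero D hl hrr r τ.1 x h2 h3
    · show (Pool.Agent.H901.TS.Ph3 (a + b) i0 τ.1 + 0).IsHomogeneous 3
      rw [add_zero]
      exact Pool.Agent.H901.TS.Ph3_hom i0 τ.1
    · show aeval x (Pool.Agent.H901.TS.Ph3 (a + b) i0 τ.1 + 0) = 0
      rw [add_zero]
      exact Pool.Agent.H901.TS.Ph3_zero i0 τ.1 x (hY hx).1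
  refine ⟨fun m hm hmT Y hY => ?_, main⟩
  rcases hY with hY | hY
  · refine main m m hm hmT.le hmT 0 (fun j => ⟨isHomogeneous_zero _ _ _,
      fun β h => absurd (coeff_zero β) h⟩) Y fun x hx => ?_
    obtain ⟨h2, h3⟩ := hY hx
    refine ⟨h2, fun j => ?_⟩
    rw [Pi.zero_apply, map_zero]
    rcases h3 with h3 | h3
    · rw [h3, zero_mul]
    · rw [h3, zero_pow two_ne_zero, mul_zero]
  · let w : Fin (m + m + 2) := ⟨m + m, by omega⟩
    refine main m m hm hmT.le hmT (fun j => X (mid (Fin.castAdd m j)) *
      X (mid (Fin.natAdd m j)) * X w) (fun j => ⟨?_, fun β h => ?_⟩) Y fun x hx => ?_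
    · exact ((isHomogeneous_X ℂ _).mul (isHomogeneous_X ℂ _)).mul (isHomogeneous_X ℂ _)
    · rw [X, X, X, monomial_mul, monomial_mul, coeff_monomial] at h
      split_ifs at h with h2
      · rw [← h2]
        have h3 : ∀ i : Fin (m + m + 2), i ≠ 0 → i ≠ Fin.last (m + m + 1) →
            (Finsupp.single i 1 : Fin (m + m + 2) →₀ ℕ) 0 = 0 ∧
            (Finsupp.single i 1 : Fin (m + m + 2) →₀ ℕ) (Fin.last (m + m + 1)) = 0 := by
          intro i hi hi'
          exact ⟨Finsupp.single_eq_of_ne hi.symm, Finsupp.single_eq_of_ne hi'.symm⟩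
        have e1 := h3 (mid (Fin.castAdd m j))
          (by intro h; exact absurd (congrArg Fin.val h) (by simp [mid]))
          (by
            intro h
            have h5 := congrArg Fin.val h
            simp only [mid, Fin.val_castAdd, Fin.val_last] at h5
            have := j.isLt
            omega)
        have e2 := h3 (mid (Fin.natAdd m j))
          (by intro h; exact absurd (congrArg Fin.val h) (by simp [mid]))
          (by
            intro h
            have h5 := congrArg Fin.val h
            simp only [mid, Fin.val_natAdd, Fin.val_last] at h5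
            have := j.isLt
            omega)
        have e3 := h3 w
          (by
            intro h
            have h5 := congrArg Fin.val h
            simp only [w, Fin.val_zero] at h5
            omega)
          (by
            intro h
            have h5 := congrArg Fin.val h
            simp only [w, Fin.val_last] at h5
            omega)
        rw [Finsupp.add_apply, Finsupp.add_apply, Finsupp.add_apply, Finsupp.add_apply, e1.1,
          e1.2, e2.1, e2.2, e3.1, e3.2]
        exact ⟨rfl, rfl⟩
      · exact absurd rfl h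
    · obtain ⟨h2, h3⟩ := hY hx
      refine ⟨h2, fun j => ?_⟩
      show x 0 * x (mid (Fin.castAdd m j)) ^ 2 =
        aeval x (X (mid (Fin.castAdd m j)) * X (mid (Fin.natAdd m j)) * X w)
      rw [map_mul, map_mul, aeval_X, aeval_X, aeval_X]
      rcases h3 with h3 | h3
      · have h4 := h3 0 j.succ
        simp only [row, row', Fin.cons_zero, Fin.cons_succ] at h4
        have h5 : x 0 * x (mid (Fin.castAdd m j)) = x (mid (Fin.natAdd m j)) * x w := h4
        linear_combination x (mid (Fin.castAdd m j)) * h5
      · rw [h3 j]
        ring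

end

end Pool.Agent.Results.MP_2619d0_ag.MeetingSubspacesAndScrolls
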