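import Mathlib
import Pool.Agent.H900.PW.Fin
import Pool.Agent.H900.PW.Rt
import Pool.Agent.H900.PW.Fn6

/-!
# Webs of cubic fourfolds: the degree of every parametrization is divisible by six, and six is the
least degree

Let `X → ℙ^s` be a very general linear system of complex cubic hypersurfaces of dimension `n`, given
by `F_0 + t_1 F_1 + … + t_s F_s = 0` with very general cubic forms `F_0, …, F_s` in `n + 2`
variables, and let `X_η` be its generic member, a cubic hypersurface of dimension `n` over the
field `K = ℂ(t_1, …, t_s)`. We show for `1 ≤ n ≤ s + 1` (for instance, for very general webs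
`s = 3` of cubic fourfolds) that the degree of every parametrization of `X_η` is divisible by `6`.
More generally we consider families `∑_{κ ∈ W} t^κ F_κ = 0`, where `W` is a finite set of monomials
`t^κ` in `t_1, …, t_s` which contains `1` and at least one of the `t_i`, and the `F_κ` are very
general cubic forms, with `1 ≤ n ≤ N`, where `N` is the number of the squarefree members of `W`. For
instance, let `X_η` be the generic fibre over `ℙ^s` of a very general hypersurface of bidegree
`(d, 3)` in `ℙ^s × ℙ^{n+1}` (a very general family of cubics of degree `d` over `ℙ^s`); then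
`N = ∑_{j ≤ d} binom(s, j)`, so for the cubic fourfolds (`n = 4`) the result holds for `s = 3`, `d = 1`
(webs) and for `s = 2`, `d ≥ 2`.

(A) Let `L / K` be an algebraic field extension. The degree of every dominant rational map over `K`
from the affine space of dimension `n + m` over `L` to `X_η × 𝔸^m` is divisible by `6` (or
infinite). For instance, if `L / K` is finite of degree prime to `3`, then `X_η` has no unirational
parametrization of degree two over `L`, although every cubic hypersurface which contains a line has
one: the classical parametrizations of degree two of the members of the family depend on the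
choice of a line, and this choice is a choice of a degree divisible by three.

(A') More generally, let `r` be a rational map over `L` from an affine space to `X_η`, and let `M` be
a finite extension of the function field of `X_η × 𝔸^m` which contains `L`, of a degree not divisible
by `6`. Then the generic point of `X_η` is not the value `r(v)` at a point `v` of the affine space
over `M`. So if `[L : K]` is finite and not divisible by `6`, then `X_η × 𝔸^m` is not retract rational
over `L`.

(B) Let `M` be a finite extension of the function field of `X_η × 𝔸^m`, of a degree which is not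
divisible by `6`. The generic point of `X_η`, as a point over `M`, is not joined by a chain of
rational curves on `X_η` over `M` to any point whose coordinates are algebraic over `K`.

(C) Let `n ≥ 2` and `|W| ≤ n + 1` (for a linear system: `n = s` or `n = s + 1`, for instance webs of
cubic fourfolds). Then `X_η` has a parametrization of degree
exactly `6` over `K`. So the least degree of a dominant rational map over `K` from the affine
space of dimension `n` to `X_η` is `6`.

The number `6` is the torsion order of the generic cubic over the field generated by all its
coefficients (Chatzistamatiou, Levine). The statements hold for all families of cubic forms `F_κ`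
whose coefficients are not a zero of one of countably many nonzero polynomials with rational
coefficients, which do not depend on the `F_κ`.

Proof. For the prime two (degrees `d` which are odd) this is the theorem `CubicFamilies`. For the
prime three the family specializes to
`y_0 y_1 (y_0 + y_1) = ∑_j t^{σ(j)} a_j³`, with different squarefree `t^{σ(j)}`, one of which is `1`. Let `M` be
an extension as in (B), of degree prime to `3`. There is a valuation `V` of `M`, of rank `s + 1`,
a composition of discrete valuations for which `c`, `t_s, …, t_1` have positive order (where `c` is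
the parameter of the specialization), such that the ramification indices with respect to the `t_i`
and the residue degree (over the field generated by the cube root `a` of `λ(λ+1)`) are prime
to `3`; this follows from the fundamental identity. For a point of the cubic over `M` we consider
`ac(y_0) / ac(y_1)` modulo cubes in the residue field `k` (`ac` is the angular component), if
`V(y_0) = V(y_1)`; otherwise the class is trivial. The class is constant along rational curves over
`M`: for every slope of the Newton polygon we obtain an equation
`u w (u + w) = ∑ A_j³` of the initial forms over `k[Z]`. Since the values of the `t^{σ(j)}` are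
different modulo three times the value group, and no three of them are in arithmetic progression
modulo three, there are at most two terms on the right side, and they are of the form
`X^{m_1} A³ + X^{m_2} B³` with `m_1 ≠ m_2` modulo `3` in the variable `X = Z^b`. At a prime `q` of
`k[X]` where the order of `u / w` is not divisible by `3`, `X` is a cube in `k[X]/q`, and its norm
`± q(0)` is a cube. Hence the class of the lowest coefficients of `u / w` and the class of the
highest coefficients agree. The class of the generic point is `λ`, which is not a cube in
an extension of `k_0(λ, (λ(λ+1))^{1/3})` of degree prime to `3`; the class of a point with algebraic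
coordinates is trivial.

For (C) let `p` be a common zero of the forms `F_κ` over `ℂ`. The plane spanned by `p` and two
tangent directions over `K` meets `X_η` in a nodal cubic, with the rational points `q(u)`. We map
`u` and a tangent direction at `q(u)` to the third point `g` of intersection of the line with
`X_η`. For given `g` the parameter `u` is a zero of the derivative of the equation at `q(u)` in the
direction `g`, a polynomial of degree at most `6` in `u`. So the degree is at most `6` if the
construction is not degenerate. This is so for very general `F_κ`, as a count of algebraically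
independent elements shows that the family is then very general among the families
through `p`. By (A) the degree is `6`.
-/

set_option autoImplicit false

namespace Pool.Agent.Results.MP_2619d0_ag.SixDividesDegrees

open MvPolynomial Module

noncomputable section

/-- the field `K = ℂ(t_1, …, t_s)` -/
abbrev K (s : ℕ) : Type := FractionRing (MvPolynomial (Fin s) ℂ)

/-- the parameters `t_1, …, t_s` -/
def t (s : ℕ) (j : Fin s) : K s := algebraMap (MvPolynomial (Fin s) ℂ) (K s) (X j)

/-- The equation `∑_κ t^κ F_κ` of the generic member of the family of cubic hypersurfaces which is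
given by the cubic forms `F_κ`. Here `κ` runs through a finite set `W` of exponents, and `t^κ` is
the product of the `t_j ^ κ_j`. -/
def member {r s : ℕ} (W : Finset (Fin s → ℕ)) (F : {κ // κ ∈ W} → MvPolynomial (Fin r) ℂ) :
    MvPolynomial (Fin r) (K s) :=
  ∑ κ : {κ // κ ∈ W}, C (∏ j, t s j ^ κ.1 j) * map (algebraMap ℂ (K s)) (F κ)

/-- The points `u` and `u'` of the projective space over `M` are joined by a rational curve over `M`
on the hypersurface `f = 0`: there are polynomials `C_i` in one variable, of degree at most `D`,
with `f(C) = 0`, such that `u` is the value of `C` at `0` and `u'` is the value at `∞` (the vector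
of the coefficients in degree `D`). -/
def Joined {k M : Type} [Field k] [Field M] [Algebra k M] {r : ℕ} (f : MvPolynomial (Fin r) k)
    (u u' : Fin r → M) : Prop :=
  u ≠ 0 ∧ u' ≠ 0 ∧ ∃ (D : ℕ) (C : Fin r → Polynomial M), (∀ i, (C i).natDegree ≤ D) ∧
    aeval C f = 0 ∧ (∃ a : M, a ≠ 0 ∧ ∀ i, (C i).coeff 0 = a * u i) ∧
    ∃ b : M, b ≠ 0 ∧ ∀ i, (C i).coeff D = b * u' i

/-- the field generated over `k` by the ratios of the coordinates of the point `g` of the projective
space and by the elements `R_l` -/
def pointField (k : Type) {M : Type} [Field k] [Field M] [Algebra k M] {r m : ℕ}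
    (g : Fin r → M) (R : Fin m → M) : IntermediateField k M :=
  IntermediateField.adjoin k ({z | ∃ i j, z = g i / g j} ∪ Set.range R)

/-- the field of rational functions in `N` variables over `L` -/
abbrev RatFun (N : ℕ) (L : Type) [Field L] : Type := FractionRing (MvPolynomial (Fin N) L)

/-- `g` is a point of the hypersurface `f = 0` in the projective space over `M`, and the degree of
`M` over the field generated over `k` by `(g, R)` is finite and not divisible by `6`
(`finrank` is `0` if the degree is infinite, and `0` is divisible by `6`) -/
def NotSixPoint (k : Type) {M : Type} [Field k] [Field M] [Algebra k M] {r m : ℕ}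
    (f : MvPolynomial (Fin r) k) (g : Fin r → M) (R : Fin m → M) : Prop :=
  g ≠ 0 ∧ aeval g f = 0 ∧ ¬ 6 ∣ finrank (pointField k g R) M

/-- For every algebraic extension `L` of `k`, every `m` and every rational map `(g, R)` over `k`
from the affine space of dimension `n + m` over `L` to the product of the
hypersurface `f = 0` in the projective space of dimension `n + 1` and the affine space of
dimension `m`, the degree of `(g, R)` is divisible by `6` or infinite. -/
def SixDividesParametrizations {k : Type} [Field k] {n : ℕ}
    (f : MvPolynomial (Fin (n + 2)) k) : Prop :=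
  ∀ (L : Type) [Field L] [Algebra k L] [Algebra.IsAlgebraic k L] (m : ℕ)
    (g : Fin (n + 2) → RatFun (n + m) L) (R : Fin m → RatFun (n + m) L), ¬ NotSixPoint k f g R

/-- There are no algebraic extension `L` of `k`, rational map `r` over `L` from an affine space to
the hypersurface `X = (f = 0)`, field `M` containing `L` and point `v` of the affine space over `M`,
such that `g = r(v)` is a generic point of `X` and `M` is of a finite degree not divisible by `6`
over the field `k(g, R)` of a generic point `(g, R)` of the product of `X` with an affine space of
dimension `m` (the transcendence degree `n + m` of `M` says that this point is generic). For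
`L = k`, `m = 0` and `M = k(g)` this says that `X` is not retract rational: if `r ∘ i` is the
identity of `X` for rational maps `i` from `X` to the affine space and `r` back, then `g = r(v)` for
`v = i(g)`. The polynomials `r_0, …, r_{n+1}` are homogeneous coordinates of the map `r`. -/
def SixDividesRetractions {k : Type} [Field k] {n : ℕ} (f : MvPolynomial (Fin (n + 2)) k) : Prop :=
  ∀ (L : Type) [Field L] [Algebra k L] [Algebra.IsAlgebraic k L] (N : ℕ)
    (r : Fin (n + 2) → MvPolynomial (Fin N) L), aeval r f = 0 →
    ∀ (M : Type) [Field M] [Algebra k M] [Algebra L M] [IsScalarTower k L M] (v : Fin N → M)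
      (m : ℕ) (R : Fin m → M), Algebra.trdeg k M = ((n + m : ℕ) : Cardinal) →
      ¬ NotSixPoint k f (fun i => aeval v (r i)) R

/-- Let `g` be a point of the hypersurface `f = 0` in the projective space of dimension `n + 1`,
with coordinates in an extension `M` of `k` of transcendence degree `n + m`, and let
`R_1, …, R_m ∈ M`. We assume that the degree of `M` over the field generated by `(g, R)`
is finite and not divisible by `6` (so `(g, R)` is a generic point of the product of the
hypersurface and the affine space of dimension `m`). Then `g` is not joined by a chain of rational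
curves over `M` on the hypersurface to any point whose coordinates are algebraic over `k`. -/
def NotConnected {k : Type} [Field k] {n : ℕ} (f : MvPolynomial (Fin (n + 2)) k) : Prop :=
  ∀ (M : Type) [Field M] [Algebra k M] (m : ℕ) (g : Fin (n + 2) → M) (R : Fin m → M),
    Algebra.trdeg k M = ((n + m : ℕ) : Cardinal) → NotSixPoint k f g R →
    ∀ p : Fin (n + 2) → M, (∀ i, IsAlgebraic k (p i)) → ¬ Relation.ReflTransGen (Joined f) g p

/-- There is a rational map `g` over `k` of degree six from the affine space of dimension `n` over
`k` to the hypersurface `f = 0` in the projective space of dimension `n + 1`. -/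
def SixAttained {k : Type} [Field k] {n : ℕ} (f : MvPolynomial (Fin (n + 2)) k) : Prop :=
  ∃ g : Fin (n + 2) → RatFun n k, g ≠ 0 ∧ aeval g f = 0 ∧
    finrank (pointField k g (fun i : Fin 0 => i.elim0)) (RatFun n k) = 6

/-- the exponents of the monomials of degree three -/
abbrev Mon (r : ℕ) : Type := {β : Fin r →₀ ℕ // β.degree = 3}

/-- The property `P` holds for all families of cubic forms, indexed by the finite set `W`, outside a
countable union of hypersurfaces: there is a countable set `Ps` of nonzero polynomials
with rational coefficients in the coefficients of the cubic forms `F_κ`, such that `P F` holds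
for every family `F` of cubic forms such that no member of `Ps` vanishes at the coefficients
of `F`. -/
def VeryGeneral {s : ℕ} (W : Finset (Fin s → ℕ)) (r : ℕ)
    (P : ({κ // κ ∈ W} → MvPolynomial (Fin r) ℂ) → Prop) : Prop :=
  ∃ Ps : Set (MvPolynomial ({κ // κ ∈ W} × Mon r) ℚ), Ps.Countable ∧ 0 ∉ Ps ∧
    ∀ F : {κ // κ ∈ W} → MvPolynomial (Fin r) ℂ, (∀ κ, (F κ).IsHomogeneous 3) →
      (∀ Q ∈ Ps, aeval (fun p : {κ // κ ∈ W} × Mon r => coeff p.2.1 (F p.1)) Q ≠ 0) → P F

/-- **Very general families of cubics, degrees divisible by six.** Let `W` be a finite set of
monomials in `t_1, …, t_s` which contains `1` and one of the `t_i`, let `N` be the number of the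
squarefree members of `W`, and let `1 ≤ n ≤ N`. Then the generic member of a very general family
`∑_κ t^κ F_κ = 0` of cubic hypersurfaces of dimension `n` has the properties (A), (A') and (B), and
(C) if `n ≥ 2` and `|W| ≤ n + 1`. -/
theorem result (s n : ℕ) (W : Finset (Fin s → ℕ)) (h0 : 0 ∈ W) (h1 : ∃ i, Pi.single i 1 ∈ W)
    (hn : 1 ≤ n) (hW : n ≤ (W.filter fun κ => ∀ j, κ j ≤ 1).card) :
    VeryGeneral W (n + 2) fun F =>
      SixDividesParametrizations (member W F) ∧ SixDividesRetractions (member W F) ∧
        NotConnected (member W F) ∧ (2 ≤ n → W.card ≤ n + 1 → SixAttained (member W F)) := by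
  classical
  refine ⟨{P | P ≠ 0}, ?_, fun h => h rfl, ?_⟩
  · have : Countable (MvPolynomial ({κ // κ ∈ W} × Mon (n + 2)) ℚ) :=
      AddMonoidAlgebra.coeff_injective.countable
    exact Set.to_countable _
  intro F hF hP
  let F' : (Fin s → ℕ) → MvPolynomial (Fin (n + 2)) ℂ := fun τ =>
    if h : τ ∈ W then F ⟨τ, h⟩ else 0
  have hF' : ∀ τ : {κ // κ ∈ W}, F' τ.1 = F τ := fun τ => dif_pos τ.2
  have hfam : member W F = Pool.Agent.H900.PW.famw W F' := by
    unfold member Pool.Agent.H900.PW.famw
    rw [← Finset.sum_coe_sort W]
    refine Finset.sum_congr rfl fun τ _ => ?_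
    rw [hF' τ]
    rfl
  have hFh : ∀ τ ∈ W, (F' τ).IsHomogeneous 3 := by
    intro τ hτ
    rw [hF' ⟨τ, hτ⟩]
    exact hF _
  have hind : AlgebraicIndependent ℚ
      (fun p : {κ // κ ∈ W} × {β : Fin (n + 2) →₀ ℕ // β.degree = 3} =>
        coeff p.2.1 (F' p.1.1)) := by
    rw [algebraicIndependent_iff]
    intro P h
    by_contra hne
    refine hP P hne ?_
    rw [← h]
    congr 2
    funext p
    rw [hF' p.1]
  have hind' : AlgebraicIndependent ℚ
      (fun p : {κ // κ ∈ W} × {β : Fin (n + 2) →₀ ℕ // β.degree = 3} =>
        coeff p.2.1 (F p.1)) := by
    convert hind using 2 with p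
    rw [hF' p.1]
  have hB : ∀ (M : Type) [Field M] [Algebra (K s) M] (m : ℕ) (g : Fin (n + 2) → M)
      (R : Fin m → M) (ι' : Type) (y : ι' → M), AlgebraicIndependent (K s) y →
      ((n + m : ℕ) : Cardinal) ≤ Cardinal.mk ι' → g ≠ 0 →
      aeval g (Pool.Agent.H900.PW.famw W F') = 0 →
      ¬ 6 ∣ finrank (pointField (K s) g R) M →
      ∀ l : Fin (n + 2) → M, (∀ i, IsAlgebraic (K s) (l i)) →
        ¬ Relation.ReflTransGen (Joined (Pool.Agent.H900.PW.famw W F')) g l := by
    intro M _ _ m g R ι' y hy hc hg0 hg h6 l hl
    exact Pool.Agent.H900.PW.main_sixw hn hW h0 h1 hFh hind g R hg0 hg hy hc h6 l hl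
  have hA : SixDividesParametrizations (member W F) := by
    rw [hfam]
    rintro L _ _ _ m g R ⟨hg0, hg, h6⟩
    set f := Pool.Agent.H900.PW.famw W F' with hf
    have hfh : f.IsHomogeneous 3 := Pool.Agent.H900.PW.famw_hom hFh
    have hinf : Infinite L := Infinite.of_injective _ (algebraMap (K s) L).injective
    obtain ⟨l, -, hl⟩ := Pool.Agent.H900.LF.param_joined (N := n + m)
      (hfh.map (algebraMap (K s) L)) g hg0 (by rw [aeval_map_algebraMap, hg])
    have hy := (Pool.Agent.H900.LF.vars_indep L (n + m)).restrictScalars
      (R := K s) (algebraMap (K s) L).injective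
    refine hB _ m g R _ _ hy (by rw [Cardinal.mk_fin]) hg0 hg h6
      (fun i => algebraMap L _ (l i))
      (fun i => (Algebra.IsAlgebraic.isAlgebraic (l i)).algebraMap)
      (Relation.ReflTransGen.single ?_)
    obtain ⟨h1, h2, Dd, Cc, h3, h4, h5, h6⟩ := hl
    refine ⟨h1, h2, Dd, Cc, h3, ?_, h5, h6⟩
    rw [aeval_map_algebraMap] at h4
    exact h4
  refine ⟨hA, ?_, ?_, fun hn2 hT2 => ?_⟩
  · rw [hfam]
    rintro L _ _ _ N r hr M _ _ _ _ v m R htr ⟨hg0, hg, h6⟩
    set f := Pool.Agent.H900.PW.famw W F' with hf
    have hfh : f.IsHomogeneous 3 := Pool.Agent.H900.PW.famw_hom hFh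
    have hinf : Infinite L := Infinite.of_injective _ (algebraMap (K s) L).injective
    obtain ⟨l, -, hl⟩ := Pool.Agent.H900.PW.retract_joined (M := M)
      (hfh.map (algebraMap (K s) L)) r (by rw [aeval_map_algebraMap, hr]) v hg0
    obtain ⟨ι, y, hy⟩ := exists_isTranscendenceBasis' (K s) M
    refine hB M m _ R ι y hy.1 (by rw [hy.cardinalMk_eq_trdeg, htr]) hg0 hg h6
      (fun i => algebraMap L M (l i))
      (fun i => (Algebra.IsAlgebraic.isAlgebraic (l i)).algebraMap)
      (Relation.ReflTransGen.single ?_)
    obtain ⟨h1, h2, Dd, Cc, h3, h4, h5, h6⟩ := hl
    refine ⟨h1, h2, Dd, Cc, h3, ?_, h5, h6⟩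
    rw [aeval_map_algebraMap] at h4
    exact h4
  · rw [hfam]
    rintro M _ _ m g R htr ⟨hg0, hg, h6⟩ l hl
    obtain ⟨ι, y, hy⟩ := exists_isTranscendenceBasis' (K s) M
    refine hB M m g R ι y hy.1 ?_ hg0 hg h6 l hl
    rw [hy.cardinalMk_eq_trdeg, htr]
  · obtain ⟨g, hg0, hg, h3, h4⟩ := Pool.Agent.H900.PW.attainedw h0 hn2 hT2 hF hind'
    have hg' : aeval g (member W F) = 0 := hg
    have hpf : pointField (K s) g (fun i : Fin 0 => i.elim0) =
        IntermediateField.adjoin (K s) {y | ∃ i j, y = g i / g j} := by
      unfold pointField
      rw [Set.range_eq_empty, Set.union_empty]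
    have h5 : 6 ∣ finrank (pointField (K s) g (fun i : Fin 0 => i.elim0)) (RatFun n (K s)) := by
      by_contra hcon
      exact hA (K s) 0 g (fun i : Fin 0 => i.elim0) ⟨hg0, hg', hcon⟩
    refine ⟨g, hg0, hg', ?_⟩
    rw [hpf] at h5 ⊢
    obtain ⟨c, hc⟩ := h5
    have hc' : finrank (IntermediateField.adjoin (K s) {y | ∃ i j, y = g i / g j})
      (FractionRing (MvPolynomial (Fin n) (K s))) = 6 * c := hc
    rw [hc'] at h3 h4
    have hc1 : c = 1 := by omega
    show finrank (IntermediateField.adjoin (K s) {y | ∃ i j, y = g i / g j})
      (FractionRing (MvPolynomial (Fin n) (K s))) = 6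
    rw [hc', hc1]

end

end Pool.Agent.Results.MP_2619d0_ag.SixDividesDegrees
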